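import Pool.Agent.Helper70.SK.Stmts
import Pool.Agent.Helper70.SK.Lib

/-! Sticky Kakeya sets: comparison of the profiles of the two points (S4A). -/

namespace Pool.Agent.Helper70.SK

open Finset Pool.Agent.Helper70.DK

/-! ### laws -/

theorem s4a_law_congr {Ω α : Type} (S : Finset Ω) (f f' : Ω → α) (h : ∀ x ∈ S, f x = f' x) (z : α) :
    law S f z = law S f' z := by
  classical
  unfold law
  rw [Finset.filter_congr (fun x hx => by rw [h x hx] : ∀ x ∈ S, f x = z ↔ f' x = z)]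

theorem s4a_ent_congr {Ω α : Type} (S : Finset Ω) (f f' : Ω → α) (h : ∀ x ∈ S, f x = f' x) :
    ent S f = ent S f' :=
  ent_congr S f f' fun x hx y hy => by rw [h x hx, h y hy]

theorem s4a_law_push {Ω Ω' α β : Type} (S : Finset Ω) (S' : Finset Ω') (g : Ω → Ω')
    (hg : ∀ φ : Ω' → ℝ, (∑ ω ∈ S, φ (g ω)) * (S'.card : ℝ) = (∑ ω ∈ S', φ ω) * (S.card : ℝ))
    (hS : S.Nonempty) (hS' : S'.Nonempty) (W : Ω' → β) (F : Ω' → α) (w : β) (z : α) :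
    law (fib S (fun ω => W (g ω)) w) (fun ω => F (g ω)) z = law (fib S' W w) F z := by
  classical
  have hc : (0 : ℝ) < S.card := by exact_mod_cast hS.card_pos
  have hc' : (0 : ℝ) < S'.card := by exact_mod_cast hS'.card_pos
  have h1 := hg (fun ω => if (W ω = w ∧ F ω = z) then 1 else 0)
  have h2 := hg (fun ω => if W ω = w then 1 else 0)
  rw [Finset.sum_boole, Finset.sum_boole] at h1 h2
  have e1 : law (fib S (fun ω => W (g ω)) w) (fun ω => F (g ω)) z =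
      ((S.filter (fun ω => W (g ω) = w ∧ F (g ω) = z)).card : ℝ) /
        ((S.filter (fun ω => W (g ω) = w)).card : ℝ) := by
    unfold law fib
    rw [Finset.filter_filter]
  have e2 : law (fib S' W w) F z =
      ((S'.filter (fun ω => W ω = w ∧ F ω = z)).card : ℝ) /
        ((S'.filter (fun ω => W ω = w)).card : ℝ) := by
    unfold law fib
    rw [Finset.filter_filter]
  rw [e1, e2]
  have k1 : ((S.filter (fun ω => W (g ω) = w ∧ F (g ω) = z)).card : ℝ) =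
      ((S'.filter (fun ω => W ω = w ∧ F ω = z)).card : ℝ) * (S.card / S'.card) := by
    field_simp
    linarith
  have k2 : ((S.filter (fun ω => W (g ω) = w)).card : ℝ) =
      ((S'.filter (fun ω => W ω = w)).card : ℝ) * (S.card / S'.card) := by
    field_simp
    linarith
  rw [k1, k2, mul_div_mul_right _ _ (div_pos hc hc').ne']

theorem s4a_law_bij {Ω Ω' α : Type} (S : Finset Ω) (f : Ω → α) (S' : Finset Ω') (f' : Ω' → α)
    (e : Ω' → Ω) (he : ∀ x ∈ S', ∀ y ∈ S', e x = e y → x = y) (hm : ∀ x ∈ S', e x ∈ S)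
    (hs : ∀ y ∈ S, ∃ x ∈ S', e x = y) (hf : ∀ x ∈ S', f (e x) = f' x) (z : α) :
    law S f z = law S' f' z := by
  classical
  have hSe : S = S'.image e := by
    ext y
    rw [Finset.mem_image]
    constructor
    · intro hy; exact hs y hy
    · rintro ⟨x, hx, rfl⟩; exact hm x hx
  have hinj : Set.InjOn e (S' : Set Ω') := fun x hx y hy h => he x hx y hy h
  have hcard : S.card = S'.card := by
    rw [hSe, Finset.card_image_of_injOn hinj]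
  have hcard2 : (S.filter (fun ω => f ω = z)).card = (S'.filter (fun ω => f' ω = z)).card := by
    have : S.filter (fun ω => f ω = z) = (S'.filter (fun ω => f' ω = z)).image e := by
      ext y
      rw [Finset.mem_image, Finset.mem_filter]
      constructor
      · rintro ⟨hy, hz⟩
        obtain ⟨x, hx, rfl⟩ := hs y hy
        refine ⟨x, ?_, rfl⟩
        rw [Finset.mem_filter]
        exact ⟨hx, by rw [← hf x hx]; exact hz⟩
      · rintro ⟨x, hx, rfl⟩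
        rw [Finset.mem_filter] at hx
        exact ⟨hm x hx.1, by rw [hf x hx.1]; exact hx.2⟩
    rw [this]
    apply Finset.card_image_of_injOn
    intro x hx y hy h
    have hx' := (Finset.mem_filter.1 (Finset.mem_coe.1 hx)).1
    have hy' := (Finset.mem_filter.1 (Finset.mem_coe.1 hy)).1
    exact he x hx' y hy' h
  unfold law
  rw [hcard2, hcard]

theorem s4a_mem_fib {Ω β : Type} (S : Finset Ω) (g : Ω → β) (c : β) (ω : Ω) :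
    ω ∈ fib S g c ↔ ω ∈ S ∧ g ω = c := by
  simp only [fib, Finset.mem_filter]

theorem s4a_mem_Qb {Ω : Type} {q : ℕ} (Z : Finset Ω) (y : Ω → Fin q → ℤ) (s : ℤ) (S : Fin q → ℤ)
    (ω : Ω) : ω ∈ Qb Z y s S ↔ ω ∈ Z ∧ ∀ r, S r ≤ y ω r ∧ y ω r < S r + s := by
  unfold Qb
  exact Finset.mem_filter

/-! ### the shift lemma on a partition -/

open Classical in
theorem s4a_shift (h : ST_SHIFT) {Ω T α β : Type} (X : Finset Ω) (Z : T → Finset Ω) (t : Ω → T)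
    (hZ : ∀ τ x, x ∈ Z τ ↔ x ∈ X ∧ t x = τ) (F : Ω → α) (F' : T → Ω → α) (π : α → β) :
    ∑ x ∈ X, l1 (fib (Z (t x)) (fun x' => π (F x')) (π (F x))) F
      (fib (Z (t x)) (fun x' => π (F' (t x) x')) (π (F x))) (F' (t x)) ≤
    4 * ∑ x ∈ X, (if F x ≠ F' (t x) x then (1 : ℝ) else 0) := by
  have hZe : ∀ τ, Z τ = X.filter (fun x => t x = τ) := by
    intro τ; ext x; rw [hZ, Finset.mem_filter]
  have hmap : ∀ x ∈ X, t x ∈ X.image t := fun x hx => Finset.mem_image_of_mem t hx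
  rw [← Finset.sum_fiberwise_of_maps_to hmap, ← Finset.sum_fiberwise_of_maps_to hmap
    (fun x => if F x ≠ F' (t x) x then (1 : ℝ) else 0), Finset.mul_sum]
  refine Finset.sum_le_sum fun τ _ => ?_
  have h1 := h Ω α β (Z τ) F (F' τ) π
  rw [← Finset.sum_boole] at h1
  rw [← hZe τ]
  have e1 : ∑ x ∈ Z τ, l1 (fib (Z (t x)) (fun x' => π (F x')) (π (F x))) F
      (fib (Z (t x)) (fun x' => π (F' (t x) x')) (π (F x))) (F' (t x)) =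
      ∑ x ∈ Z τ, l1 (fib (Z τ) (fun x' => π (F x')) (π (F x))) F
      (fib (Z τ) (fun x' => π (F' τ x')) (π (F x))) (F' τ) := by
    refine Finset.sum_congr rfl fun x hx => ?_
    rw [((hZ τ x).1 hx).2]
  have e2 : ∑ x ∈ Z τ, (if F x ≠ F' (t x) x then (1 : ℝ) else 0) =
      ∑ x ∈ Z τ, (if F x ≠ F' τ x then (1 : ℝ) else 0) := by
    refine Finset.sum_congr rfl fun x hx => ?_
    rw [((hZ τ x).1 hx).2]
  rw [e1, e2]
  exact h1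

/-! ### boxes -/

theorem s4a_mem_Bx {q : ℕ} (s : ℤ) (y S : Fin q → ℤ) :
    S ∈ Bx s y ↔ ∀ r, y r - s < S r ∧ S r ≤ y r := by
  unfold Bx
  rw [Fintype.mem_piFinset]
  simp only [Finset.mem_Ioc]

theorem s4a_card_Bx {q : ℕ} (s : ℕ) (y : Fin q → ℤ) : (Bx (s : ℤ) y).card = s ^ q := by
  unfold Bx
  rw [Fintype.card_piFinset]
  have : ∀ r : Fin q, (Finset.Ioc (y r - (s : ℤ)) (y r)).card = s := by
    intro r; rw [Int.card_Ioc]; omega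
  simp [this]

theorem s4a_card_gr (q M : ℕ) : (gr q M).card = M ^ q := by
  unfold gr
  rw [Fintype.card_piFinset]
  simp

theorem s4a_Ioc_sdiff (a b : ℤ) (s : ℕ) :
    ((Finset.Ioc (a - s) a \ Finset.Ioc (b - s) b).card : ℤ) ≤ |a - b| := by
  rcases le_total b a with h | h
  · have hsub : Finset.Ioc (a - s) a \ Finset.Ioc (b - s) b ⊆ Finset.Ioc b a := by
      intro z hz
      rw [Finset.mem_sdiff, Finset.mem_Ioc, Finset.mem_Ioc] at hz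
      rw [Finset.mem_Ioc]
      omega
    have := Finset.card_le_card hsub
    rw [Int.card_Ioc] at this
    rw [abs_of_nonneg (by omega)]
    omega
  · have hsub : Finset.Ioc (a - s) a \ Finset.Ioc (b - s) b ⊆ Finset.Ioc (a - s) (b - s) := by
      intro z hz
      rw [Finset.mem_sdiff, Finset.mem_Ioc, Finset.mem_Ioc] at hz
      rw [Finset.mem_Ioc]
      omega
    have := Finset.card_le_card hsub
    rw [Int.card_Ioc] at this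
    rw [abs_of_nonpos (by omega)]
    omega

theorem s4a_box_sdiff {q : ℕ} (s : ℕ) (y y' : Fin q → ℤ) (ρ : ℝ)
    (h : ∀ r, |(y r : ℝ) - (y' r : ℝ)| ≤ ρ) :
    (((Bx (s : ℤ) y) \ (Bx (s : ℤ) y')).card : ℝ) * s ≤ q * ρ * (s : ℝ) ^ q := by
  classical
  set f : Fin q → Finset ℤ := fun r => Finset.Ioc (y r - (s : ℤ)) (y r) with hf
  set A : Fin q → Finset ℤ := fun r => Finset.Ioc (y r - (s : ℤ)) (y r) \
    Finset.Ioc (y' r - (s : ℤ)) (y' r) with hA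
  have hsub : (Bx (s : ℤ) y) \ (Bx (s : ℤ) y') ⊆
      Finset.univ.biUnion (fun r : Fin q => Fintype.piFinset (Function.update f r (A r))) := by
    intro S hS
    rw [Finset.mem_sdiff, s4a_mem_Bx, s4a_mem_Bx] at hS
    obtain ⟨h1, h2⟩ := hS
    push Not at h2
    obtain ⟨r, hr⟩ := h2
    rw [Finset.mem_biUnion]
    refine ⟨r, Finset.mem_univ r, ?_⟩
    rw [Fintype.mem_piFinset]
    intro r'
    by_cases hr' : r' = r
    · subst hr'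
      rw [Function.update_self, hA]
      simp only [Finset.mem_sdiff, Finset.mem_Ioc]
      refine ⟨h1 r', ?_⟩
      rintro ⟨a, b⟩
      have := hr a
      omega
    · rw [Function.update_of_ne hr', hf]
      simp only [Finset.mem_Ioc]
      exact h1 r'
  have hcard : ∀ r : Fin q, ((Fintype.piFinset (Function.update f r (A r))).card : ℝ) * s ≤
      ρ * (s : ℝ) ^ q := by
    intro r
    rw [Fintype.card_piFinset]
    have hfc : ∀ r', (f r').card = s := by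
      intro r'; rw [hf]; simp only [Int.card_Ioc]; omega
    have hprod : (∏ a, (Function.update f r (A r) a).card) * s = (A r).card * s ^ q := by
      have e1 : ∀ a, (Function.update f r (A r) a).card =
          Function.update (fun a => (f a).card) r (A r).card a := by
        intro a
        by_cases ha : a = r
        · subst ha; simp
        · simp [Function.update_of_ne ha]
      simp only [e1]
      rw [Finset.prod_update_of_mem (Finset.mem_univ r)]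
      have e2 : ∏ x ∈ Finset.univ \ {r}, (f x).card = s ^ (q - 1) := by
        rw [Finset.prod_congr rfl (fun x _ => hfc x), Finset.prod_const]
        congr 1
        rw [← Finset.compl_eq_univ_sdiff, Finset.card_compl]
        simp
      rw [e2]
      have hq : 1 ≤ q := by have := r.pos; omega
      have : s ^ q = s ^ (q - 1) * s := by
        rw [← pow_succ]; congr 1; omega
      rw [this]; ring
    have hcast : ((∏ a, (Function.update f r (A r) a).card : ℕ) : ℝ) * s =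
        ((A r).card : ℝ) * (s : ℝ) ^ q := by exact_mod_cast hprod
    rw [hcast]
    refine mul_le_mul_of_nonneg_right ?_ (by positivity)
    have h1 := s4a_Ioc_sdiff (y r) (y' r) s
    have h2 : ((A r).card : ℝ) ≤ |(y r : ℝ) - (y' r : ℝ)| := by
      have : (((A r).card : ℤ) : ℝ) ≤ ((|y r - y' r| : ℤ) : ℝ) := by exact_mod_cast h1
      push_cast at this
      exact this
    exact h2.trans (h r)
  have h1 := (Finset.card_le_card hsub).trans Finset.card_biUnion_le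
  have h1' : (((Bx (s : ℤ) y) \ (Bx (s : ℤ) y')).card : ℝ) ≤
      ∑ r : Fin q, ((Fintype.piFinset (Function.update f r (A r))).card : ℝ) := by
    exact_mod_cast h1
  have hs0 : (0 : ℝ) ≤ s := Nat.cast_nonneg s
  calc (((Bx (s : ℤ) y) \ (Bx (s : ℤ) y')).card : ℝ) * s
      ≤ (∑ r : Fin q, ((Fintype.piFinset (Function.update f r (A r))).card : ℝ)) * s :=
        mul_le_mul_of_nonneg_right h1' hs0
    _ = ∑ r : Fin q, ((Fintype.piFinset (Function.update f r (A r))).card : ℝ) * s := by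
        rw [Finset.sum_mul]
    _ ≤ ∑ _r : Fin q, ρ * (s : ℝ) ^ q := Finset.sum_le_sum fun r _ => hcard r
    _ = q * ρ * (s : ℝ) ^ q := by
        rw [Finset.sum_const, Finset.card_univ, Fintype.card_fin, nsmul_eq_mul]; ring

/-! ### cells of the system -/

section sys

variable {m q : ℕ}

theorem s4a_Cf_ff (σ : Sy m q) (B k K l : ℕ) (z z' : ℕ × (Fin m → ℤ)) (u : Fin q → ℤ)
    (h : σ.ff B k K z = σ.ff B k K z') : σ.Cf B K l z u = σ.Cf B K l z' u := by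
  have h3 : cl B (σ.e K) (σ.Y B z.1 z.2) = cl B (σ.e K) (σ.Y B z'.1 z'.2) :=
    (Prod.ext_iff.1 (Prod.ext_iff.1 h).2).2
  unfold Sy.Cf
  have h4 : (fun r => (B : ℤ) ^ σ.e K * (σ.Y B z.1 z.2 r / (B : ℤ) ^ σ.e K) + u r) =
      (fun r => (B : ℤ) ^ σ.e K * (σ.Y B z'.1 z'.2 r / (B : ℤ) ^ σ.e K) + u r) := by
    funext r
    have := congrFun h3 r
    unfold cl at this
    rw [this]
  rw [h4]

/-- cells of level `l0` from those of level `l2` -/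
theorem s4a_ediv (B e2 d : ℕ) (a : ℤ) : a / (B : ℤ) ^ e2 / (B : ℤ) ^ d = a / (B : ℤ) ^ (e2 + d) := by
  rw [Int.ediv_ediv_of_nonneg (by positivity), pow_add]

/-- the corner of the cell with label `τ` -/
def s4aco (σ : Sy m q) (B i : ℕ) (τ : Fin m → ℤ) : Fin m → ℤ := fun c => (B : ℤ) ^ (σ.n - i) * τ c

/-- the modified cells -/
def s4aF (σ : Sy m q) (B i l2 c γ : ℕ) (u : Fin q → ℤ) (τ x : Fin m → ℤ) : Fin q → ℤ :=
  fun r => (σ.yc B i c x r + σ.Y B γ (s4aco σ B i τ) r + u r) / (B : ℤ) ^ σ.e l2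

/-- the corner of the cube -/
def s4aS (σ : Sy m q) (B i l0 γ : ℕ) (u : Fin q → ℤ) (τ : Fin m → ℤ) (p : Fin q → ℤ) : Fin q → ℤ :=
  fun r => (B : ℤ) ^ σ.e l0 * p r - u r - σ.Y B γ (s4aco σ B i τ) r

theorem s4a_fib_Qb (σ : Sy m q) (B i l0 l2 c γ : ℕ) (u : Fin q → ℤ) (τ : Fin m → ℤ)
    (p : Fin q → ℤ) (hB : 2 ≤ B) (he : σ.e l0 = σ.e l2 + (l2 - l0)) (Z : Finset (Fin m → ℤ)) :
    fib Z (fun x r => s4aF σ B i l2 c γ u τ x r / (B : ℤ) ^ (l2 - l0)) p =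
      Qb Z (σ.yc B i c) ((B : ℤ) ^ σ.e l0) (s4aS σ B i l0 γ u τ p) := by
  ext x
  rw [s4a_mem_fib, s4a_mem_Qb]
  refine and_congr_right fun _ => ?_
  have hpos : (0 : ℤ) < (B : ℤ) ^ σ.e l0 := by positivity
  constructor
  · intro h r
    have h1 : s4aF σ B i l2 c γ u τ x r / (B : ℤ) ^ (l2 - l0) = p r := congrFun h r
    unfold s4aF at h1
    rw [s4a_ediv, ← he] at h1
    unfold s4aS
    have h2 := Int.mul_ediv_self_le (x := σ.yc B i c x r + σ.Y B γ (s4aco σ B i τ) r + u r)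
      (k := (B : ℤ) ^ σ.e l0) hpos.ne'
    have h3 := Int.lt_mul_ediv_self_add (x := σ.yc B i c x r + σ.Y B γ (s4aco σ B i τ) r + u r)
      (k := (B : ℤ) ^ σ.e l0) hpos
    rw [h1] at h2 h3
    constructor <;> linarith
  · intro h
    funext r
    obtain ⟨h1, h2⟩ := h r
    unfold s4aS at h1 h2
    show s4aF σ B i l2 c γ u τ x r / (B : ℤ) ^ (l2 - l0) = p r
    unfold s4aF
    rw [s4a_ediv, ← he]
    apply le_antisymm
    · apply Int.le_of_lt_add_one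
      apply Int.ediv_lt_of_lt_mul hpos
      nlinarith
    · apply Int.le_ediv_of_mul_le hpos
      nlinarith

theorem s4a_F_pf (σ : Sy m q) (B i l0 l2 c γ : ℕ) (u : Fin q → ℤ) (τ : Fin m → ℤ)
    (p : Fin q → ℤ) (hB : 2 ≤ B) (he : σ.e l0 = σ.e l2 + (l2 - l0)) (x : Fin m → ℤ) :
    s4aF σ B i l2 c γ u τ x = fun r =>
      pf (σ.yc B i c) ((B : ℤ) ^ σ.e l2) (s4aS σ B i l0 γ u τ p) x r + (B : ℤ) ^ (l2 - l0) * p r := by
  funext r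
  unfold s4aF pf s4aS
  have hpos : (0 : ℤ) < (B : ℤ) ^ σ.e l2 := by positivity
  have e1 : σ.yc B i c x r + σ.Y B γ (s4aco σ B i τ) r + u r =
      (σ.yc B i c x r - ((B : ℤ) ^ σ.e l0 * p r - u r - σ.Y B γ (s4aco σ B i τ) r)) +
        (B : ℤ) ^ σ.e l2 * ((B : ℤ) ^ (l2 - l0) * p r) := by
    rw [he, pow_add]; ring
  rw [e1, Int.add_mul_ediv_left _ _ hpos.ne']

/-- the distance of the profiles in terms of the modified cells -/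
theorem s4a_dp (σ : Sy m q) (B i l0 l2 c γ : ℕ) (u : Fin q → ℤ) (τ τ' : Fin m → ℤ)
    (p : Fin q → ℤ) (hB : 2 ≤ B) (he : σ.e l0 = σ.e l2 + (l2 - l0)) (Z Z' : Finset (Fin m → ℤ)) :
    dp Z (σ.yc B i c) Z' (σ.yc B i c) ((B : ℤ) ^ σ.e l0) ((B : ℤ) ^ σ.e l2)
      (s4aS σ B i l0 γ u τ p) (s4aS σ B i l0 γ u τ' p) =
    l1 (fib Z (fun x r => s4aF σ B i l2 c γ u τ x r / (B : ℤ) ^ (l2 - l0)) p)
      (s4aF σ B i l2 c γ u τ)
      (fib Z' (fun x r => s4aF σ B i l2 c γ u τ' x r / (B : ℤ) ^ (l2 - l0)) p)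
      (s4aF σ B i l2 c γ u τ') := by
  rw [s4a_fib_Qb σ B i l0 l2 c γ u τ p hB he Z, s4a_fib_Qb σ B i l0 l2 c γ u τ' p hB he Z']
  unfold dp
  have h1 : s4aF σ B i l2 c γ u τ = fun x => (fun a : Fin q → ℤ => fun r =>
      a r + (B : ℤ) ^ (l2 - l0) * p r) (pf (σ.yc B i c) ((B : ℤ) ^ σ.e l2)
        (s4aS σ B i l0 γ u τ p) x) := by
    funext x
    exact s4a_F_pf σ B i l0 l2 c γ u τ p hB he x
  have h2 : s4aF σ B i l2 c γ u τ' = fun x => (fun a : Fin q → ℤ => fun r =>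
      a r + (B : ℤ) ^ (l2 - l0) * p r) (pf (σ.yc B i c) ((B : ℤ) ^ σ.e l2)
        (s4aS σ B i l0 γ u τ' p) x) := by
    funext x
    exact s4a_F_pf σ B i l0 l2 c γ u τ' p hB he x
  rw [h1, h2]
  refine (l1_inj _ _ _ _ (fun a : Fin q → ℤ => fun r => a r + (B : ℤ) ^ (l2 - l0) * p r) ?_).symm
  intro a b hab
  funext r
  have := congrFun hab r
  simpa using this

theorem s4a_Cf_div (σ : Sy m q) (B K l0 l2 : ℕ) (he : σ.e l0 = σ.e l2 + (l2 - l0))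
    (z : ℕ × (Fin m → ℤ)) (u : Fin q → ℤ) :
    (fun r => σ.Cf B K l2 z u r / (B : ℤ) ^ (l2 - l0)) = σ.Cf B K l0 z u := by
  funext r
  unfold Sy.Cf cl
  rw [s4a_ediv, he]

theorem s4a_geo (hGEO : ST_GEO) (B : ℕ) (R κ D C : ℝ) (σ : Sy m q) (hB : 2 ≤ B) (hR : 0 ≤ R)
    (hD : 0 ≤ D) (hOk : σ.Ok B R κ D C) (Q K i : ℕ) (rep : ℕ → ℕ) (hRep : σ.Rep B Q rep)
    (hi : i ≤ σ.n) (hQ : Q ≤ σ.n) (z : ℕ × (Fin m → ℤ)) (hz : z ∈ σ.GX B) (r : Fin q) :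
    |(((B : ℤ) ^ σ.e K * (σ.Y B z.1 z.2 r / (B : ℤ) ^ σ.e K) : ℤ) : ℝ) -
      ((σ.yc B i (rep z.1) z.2 r + σ.Y B z.1 (σ.co B i z.2) r : ℤ) : ℝ)| ≤
      (B : ℝ) ^ σ.e K + m * (R + 1 + D) * (B : ℝ) ^ σ.e i / (B : ℝ) ^ Q := by
  obtain ⟨_, g2, g3, _⟩ := hGEO m q B R κ D C σ hB hR hD hOk
  unfold Sy.GX at hz
  rw [Finset.mem_product] at hz
  obtain ⟨hγ, hx⟩ := hz
  obtain ⟨c1, c2, _, _⟩ := g3 i hi z.2 hx
  have h2 := g2 Q rep hQ hRep z.1 hγ i hi z.2 hx (σ.co B i z.2) c1 c2.symm r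
  have hpos : (0 : ℤ) < (B : ℤ) ^ σ.e K := by positivity
  have h3 := Int.mul_ediv_self_le (x := σ.Y B z.1 z.2 r) (k := (B : ℤ) ^ σ.e K) hpos.ne'
  have h4 := Int.lt_mul_ediv_self_add (x := σ.Y B z.1 z.2 r) (k := (B : ℤ) ^ σ.e K) hpos
  have h3' : (((B : ℤ) ^ σ.e K * (σ.Y B z.1 z.2 r / (B : ℤ) ^ σ.e K) : ℤ) : ℝ) ≤
      (σ.Y B z.1 z.2 r : ℝ) := by exact_mod_cast h3
  have h4' : (σ.Y B z.1 z.2 r : ℝ) <
      (((B : ℤ) ^ σ.e K * (σ.Y B z.1 z.2 r / (B : ℤ) ^ σ.e K) : ℤ) : ℝ) + (B : ℝ) ^ σ.e K := by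
    exact_mod_cast h4
  have hyc : ((σ.yc B i (rep z.1) z.2 r + σ.Y B z.1 (σ.co B i z.2) r : ℤ) : ℝ) =
      (σ.Y B (rep z.1) z.2 r : ℝ) - (σ.Y B (rep z.1) (σ.co B i z.2) r : ℝ) +
        (σ.Y B z.1 (σ.co B i z.2) r : ℝ) := by
    unfold Sy.yc
    push_cast
    ring
  rw [hyc]
  rw [abs_le] at h2 ⊢
  constructor <;> linarith [h2.1, h2.2]

/-- the error of the first kind at a point of the base space -/
noncomputable def s4aφ (σ : Sy m q) (B K i l0 l2 : ℕ) (rep : ℕ → ℕ) (b : BS m q) : ℝ :=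
  l1 (fib (σ.Zt B i (σ.tr B i b.1.2))
      (fun x' r => σ.Cf B K l2 (b.1.1, x') b.2 r / (B : ℤ) ^ (l2 - l0)) (σ.Cf B K l0 b.1 b.2))
    (fun x' => σ.Cf B K l2 (b.1.1, x') b.2)
    (fib (σ.Zt B i (σ.tr B i b.1.2))
      (fun x' r => s4aF σ B i l2 (rep b.1.1) b.1.1 b.2 (σ.tr B i b.1.2) x' r / (B : ℤ) ^ (l2 - l0))
      (σ.Cf B K l0 b.1 b.2))
    (s4aF σ B i l2 (rep b.1.1) b.1.1 b.2 (σ.tr B i b.1.2))

theorem s4a_mem_Zt (σ : Sy m q) (B i : ℕ) (τ x : Fin m → ℤ) :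
    x ∈ σ.Zt B i τ ↔ x ∈ σ.X B ∧ σ.tr B i x = τ := by
  unfold Sy.Zt
  rw [Finset.mem_filter]

open Classical in
theorem s4a_first (hSHIFT : ST_SHIFT) (hFANO : ST_FANO) (σ : Sy m q) (B K i l0 l2 : ℕ)
    (rep : ℕ → ℕ) (hB : 2 ≤ B) (he : σ.e l0 = σ.e l2 + (l2 - l0)) (ρ : ℝ) (hρ0 : 0 < ρ)
    (hρ : ρ ≤ (B : ℝ) ^ σ.e l2)
    (hgeo : ∀ z ∈ σ.GX B, ∀ r : Fin q,
      |(((B : ℤ) ^ σ.e K * (σ.Y B z.1 z.2 r / (B : ℤ) ^ σ.e K) : ℤ) : ℝ) -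
      ((σ.yc B i (rep z.1) z.2 r + σ.Y B z.1 (σ.co B i z.2) r : ℤ) : ℝ)| ≤ ρ) :
    ∑ b ∈ σ.Om B, s4aφ σ B K i l0 l2 rep b ≤
      4 * (q * (ρ / (B : ℝ) ^ σ.e l2) * ((σ.Om B).card : ℝ)) := by
  set ψ : BS m q → ℝ := fun b => if σ.Cf B K l2 b.1 b.2 ≠
    s4aF σ B i l2 (rep b.1.1) b.1.1 b.2 (σ.tr B i b.1.2) b.1.2 then (1 : ℝ) else 0 with hψ
  have step1 : ∑ b ∈ σ.Om B, s4aφ σ B K i l0 l2 rep b ≤ 4 * ∑ b ∈ σ.Om B, ψ b := by
    have dec : ∀ f : BS m q → ℝ, ∑ b ∈ σ.Om B, f b =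
        ∑ γ ∈ σ.G, ∑ u ∈ σ.U B, ∑ x ∈ σ.X B, f ((γ, x), u) := by
      intro f
      unfold Sy.Om Sy.GX
      rw [Finset.sum_product, Finset.sum_product]
      exact Finset.sum_congr rfl fun γ _ => Finset.sum_comm
    rw [dec, dec, Finset.mul_sum]
    refine Finset.sum_le_sum fun γ _ => ?_
    rw [Finset.mul_sum]
    refine Finset.sum_le_sum fun u _ => ?_
    have h := s4a_shift hSHIFT (σ.X B) (σ.Zt B i) (σ.tr B i) (fun τ x => s4a_mem_Zt σ B i τ x)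
      (fun x => σ.Cf B K l2 (γ, x) u) (fun τ => s4aF σ B i l2 (rep γ) γ u τ)
      (fun a : Fin q → ℤ => fun r => a r / (B : ℤ) ^ (l2 - l0))
    refine le_trans (le_of_eq ?_) (h.trans (le_of_eq ?_))
    · refine Finset.sum_congr rfl fun x _ => ?_
      unfold s4aφ
      rw [← s4a_Cf_div σ B K l0 l2 he (γ, x) u]
    · congr 1
      refine Finset.sum_congr rfl fun x _ => ?_
      by_cases hc : σ.Cf B K l2 (γ, x) u = s4aF σ B i l2 (rep γ) γ u (σ.tr B i x) x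
      · simp [hψ, hc]
      · simp [hψ, hc]
  refine step1.trans (mul_le_mul_of_nonneg_left ?_ (by norm_num))
  have hsM : B ^ σ.e l2 ∣ B ^ (σ.n + σ.a1 + σ.a3) := pow_dvd_pow _ (by unfold Sy.e; omega)
  have hF := (hFANO (ℕ × (Fin m → ℤ)) q (B ^ (σ.n + σ.a1 + σ.a3)) (B ^ σ.e l2) (σ.GX B)
    (fun z r => (B : ℤ) ^ σ.e K * (σ.Y B z.1 z.2 r / (B : ℤ) ^ σ.e K))
    (fun z r => σ.yc B i (rep z.1) z.2 r + σ.Y B z.1 (σ.co B i z.2) r) ρ (by positivity) hsM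
    (by positivity) hρ0 (by push_cast; exact hρ) hgeo).2
  rw [← Finset.sum_boole] at hF
  push_cast at hF
  have e1 : ∑ b ∈ σ.Om B, ψ b = ∑ p ∈ σ.GX B ×ˢ gr q (B ^ (σ.n + σ.a1 + σ.a3)),
      (if ¬ ∀ r, ((B : ℤ) ^ σ.e K * (σ.Y B p.1.1 p.1.2 r / (B : ℤ) ^ σ.e K) + p.2 r) /
        (B : ℤ) ^ σ.e l2 = (σ.yc B i (rep p.1.1) p.1.2 r + σ.Y B p.1.1 (σ.co B i p.1.2) r +
          p.2 r) / (B : ℤ) ^ σ.e l2 then (1 : ℝ) else 0) := by
    refine Finset.sum_congr rfl fun p _ => ?_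
    have hiff : (σ.Cf B K l2 p.1 p.2 ≠
        s4aF σ B i l2 (rep p.1.1) p.1.1 p.2 (σ.tr B i p.1.2) p.1.2) ↔
        ¬ ∀ r, ((B : ℤ) ^ σ.e K * (σ.Y B p.1.1 p.1.2 r / (B : ℤ) ^ σ.e K) + p.2 r) /
        (B : ℤ) ^ σ.e l2 = (σ.yc B i (rep p.1.1) p.1.2 r + σ.Y B p.1.1 (σ.co B i p.1.2) r +
          p.2 r) / (B : ℤ) ^ σ.e l2 := by
      rw [ne_eq, funext_iff]
      rfl
    show (if σ.Cf B K l2 p.1 p.2 ≠
        s4aF σ B i l2 (rep p.1.1) p.1.1 p.2 (σ.tr B i p.1.2) p.1.2 then (1 : ℝ) else 0) = _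
    by_cases hc : (σ.Cf B K l2 p.1 p.2 ≠
        s4aF σ B i l2 (rep p.1.1) p.1.1 p.2 (σ.tr B i p.1.2) p.1.2)
    · rw [if_pos hc, if_pos (hiff.1 hc)]
    · rw [if_neg hc, if_neg (fun h => hc (hiff.2 h))]
  rw [e1]
  exact hF

theorem s4a_law_Om (σ : Sy m q) (B K i l0 l2 γ : ℕ) (hγ : γ ∈ σ.G) (u : Fin q → ℤ)
    (hu : u ∈ σ.U B) (τ : Fin m → ℤ) (p z : Fin q → ℤ) :
    law (fib (σ.Om B) (fun b => (σ.tr B i b.1.2, σ.Cf B K l0 b.1 b.2, b.1.1, b.2)) (τ, p, γ, u))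
      (fun b => σ.Cf B K l2 b.1 b.2) z =
    law (fib (σ.Zt B i τ) (fun x' => σ.Cf B K l0 (γ, x') u) p)
      (fun x' => σ.Cf B K l2 (γ, x') u) z := by
  refine s4a_law_bij _ _ _ _ (fun x' => ((γ, x'), u)) ?_ ?_ ?_ ?_ z
  · intro x _ y _ hxy
    exact (Prod.ext_iff.1 (Prod.ext_iff.1 hxy).1).2
  · intro x hx
    rw [s4a_mem_fib, s4a_mem_Zt] at hx
    rw [s4a_mem_fib]
    refine ⟨?_, ?_⟩
    · unfold Sy.Om Sy.GX
      rw [Finset.mem_product, Finset.mem_product]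
      exact ⟨⟨hγ, hx.1.1⟩, hu⟩
    · show (σ.tr B i x, σ.Cf B K l0 (γ, x) u, γ, u) = (τ, p, γ, u)
      have h2 : σ.Cf B K l0 (γ, x) u = p := hx.2
      rw [hx.1.2, h2]
  · intro y hy
    rw [s4a_mem_fib] at hy
    obtain ⟨h1, h2⟩ := hy
    unfold Sy.Om Sy.GX at h1
    rw [Finset.mem_product, Finset.mem_product] at h1
    have h3 := (Prod.ext_iff.1 h2).1
    have h4 := (Prod.ext_iff.1 (Prod.ext_iff.1 h2).2).1
    have h5 := (Prod.ext_iff.1 (Prod.ext_iff.1 (Prod.ext_iff.1 h2).2).2).1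
    have h6 := (Prod.ext_iff.1 (Prod.ext_iff.1 (Prod.ext_iff.1 h2).2).2).2
    simp only at h3 h4 h5 h6
    obtain ⟨⟨y1, y2⟩, y3⟩ := y
    simp only at h3 h4 h5 h6
    subst h5
    subst h6
    refine ⟨y2, ?_, rfl⟩
    rw [s4a_mem_fib, s4a_mem_Zt]
    exact ⟨⟨h1.1.2, h3⟩, h4⟩
  · intro x _
    rfl

theorem s4a_mem_Pa (σ : Sy m q) (B : ℕ) (ω : PS m q) (h : ω ∈ σ.Pa B) :
    ω.1.1.1 ∈ σ.G ∧ ω.1.1.2 ∈ σ.X B ∧ ω.2 ∈ σ.U B ∧ ω.1.1 ∈ σ.GX B := by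
  unfold Sy.Pa Sy.GX at h
  rw [Finset.mem_product, Finset.mem_product, Finset.mem_product] at h
  refine ⟨h.1.1.1, h.1.1.2, h.2, ?_⟩
  unfold Sy.GX
  rw [Finset.mem_product]
  exact h.1.1

theorem s4a_Om_nonempty (σ : Sy m q) (B : ℕ) (h : (σ.Pa B).Nonempty) : (σ.Om B).Nonempty := by
  obtain ⟨ω, hω⟩ := h
  obtain ⟨_, _, h3, h4⟩ := s4a_mem_Pa σ B ω hω
  refine ⟨(ω.1.1, ω.2), ?_⟩
  unfold Sy.Om
  rw [Finset.mem_product]
  exact ⟨h4, h3⟩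

theorem s4a_mid (hPARA : ST_PARA) (hPIN : ST_PIN) (σ : Sy m q) (B k K i l0 l2 : ℕ)
    (hne : (σ.Pa B).Nonempty) :
    ∑ ω ∈ σ.Pa B, l1
      (fib (σ.Zt B i (σ.tr B i ω.1.1.2)) (fun x' => σ.Cf B K l0 (ω.1.1.1, x') ω.2)
        (σ.Cf B K l0 ω.1.1 ω.2))
      (fun x' => σ.Cf B K l2 (ω.1.1.1, x') ω.2)
      (fib (σ.Zt B i (σ.tr B i (σ.x1 B k K ω))) (fun x' => σ.Cf B K l0 (ω.1.1.1, x') ω.2)
        (σ.Cf B K l0 ω.1.1 ω.2))
      (fun x' => σ.Cf B K l2 (ω.1.1.1, x') ω.2) ≤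
    (σ.Pa B).card * (4 * Real.sqrt (σ.af B k K i l0 l2)) := by
  obtain ⟨p1, p2, p3, p4, p5⟩ := hPARA m q B k K σ
  have hOm := s4a_Om_nonempty σ B hne
  -- abbreviations
  set W : BS m q → (Fin m → ℤ) × (Fin q → ℤ) × ℕ × (Fin q → ℤ) :=
    fun b => (σ.tr B i b.1.2, σ.Cf B K l0 b.1 b.2, b.1.1, b.2) with hW
  set F : PS m q → Fin q → ℤ := fun ω => σ.Cf B K l2 ω.1.1 ω.2 with hF
  set Zf : PS m q → (Fin m → ℤ) × (Fin q → ℤ) × ℕ × (Fin q → ℤ) :=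
    fun ω => (σ.tr B i ω.1.1.2, σ.Cf B K l0 ω.1.1 ω.2, ω.1.1.1, ω.2) with hZf
  set Zf' : PS m q → (Fin m → ℤ) × (Fin q → ℤ) × ℕ × (Fin q → ℤ) :=
    fun ω => (σ.tr B i (σ.x1 B k K ω), σ.Cf B K l0 ω.1.1 ω.2, ω.1.1.1, ω.2) with hZf'
  have hCf : ∀ ω ∈ σ.Pa B, ∀ l, σ.Cf B K l (ω.1.1.1, σ.x1 B k K ω) ω.2 = σ.Cf B K l ω.1.1 ω.2 :=
    fun ω hω l => s4a_Cf_ff σ B k K l _ _ ω.2 (p1 ω hω).2
  -- the laws
  have law1 : ∀ ω ∈ σ.Pa B, ∀ z, law (fib (σ.Pa B) Zf (Zf ω)) F z =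
      law (fib (σ.Zt B i (σ.tr B i ω.1.1.2)) (fun x' => σ.Cf B K l0 (ω.1.1.1, x') ω.2)
        (σ.Cf B K l0 ω.1.1 ω.2)) (fun x' => σ.Cf B K l2 (ω.1.1.1, x') ω.2) z := by
    intro ω hω z
    obtain ⟨hγ, hx, hu, hz⟩ := s4a_mem_Pa σ B ω hω
    rw [← s4a_law_Om σ B K i l0 l2 ω.1.1.1 hγ ω.2 hu]
    exact s4a_law_push (σ.Pa B) (σ.Om B) (fun ω => (ω.1.1, ω.2)) (fun φ => (p5 φ).1) hne hOm W
      (fun b => σ.Cf B K l2 b.1 b.2) (Zf ω) z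
  have law2 : ∀ ω ∈ σ.Pa B, ∀ z, law (fib (σ.Pa B) Zf' (Zf' ω)) F z =
      law (fib (σ.Zt B i (σ.tr B i (σ.x1 B k K ω))) (fun x' => σ.Cf B K l0 (ω.1.1.1, x') ω.2)
        (σ.Cf B K l0 ω.1.1 ω.2)) (fun x' => σ.Cf B K l2 (ω.1.1.1, x') ω.2) z := by
    intro ω hω z
    obtain ⟨hγ, hx, hu, hz⟩ := s4a_mem_Pa σ B ω hω
    rw [← s4a_law_Om σ B K i l0 l2 ω.1.1.1 hγ ω.2 hu]
    have hg := s4a_law_push (σ.Pa B) (σ.Om B) (fun ω => ((ω.1.1.1, σ.x1 B k K ω), ω.2))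
      (fun φ => (p5 φ).2) hne hOm W (fun b => σ.Cf B K l2 b.1 b.2) (Zf' ω) z
    have hset : fib (σ.Pa B) Zf' (Zf' ω) =
        fib (σ.Pa B) (fun ω => W ((ω.1.1.1, σ.x1 B k K ω), ω.2)) (Zf' ω) := by
      ext ω'
      rw [s4a_mem_fib, s4a_mem_fib]
      refine and_congr_right fun hω' => ?_
      have : W ((ω'.1.1.1, σ.x1 B k K ω'), ω'.2) = Zf' ω' := by
        rw [hW, hZf']
        simp only
        rw [hCf ω' hω' l0]
      rw [this]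
    rw [hset]
    rw [← hg]
    refine s4a_law_congr _ _ _ ?_ z
    intro ω' hω'
    rw [s4a_mem_fib] at hω'
    exact (hCf ω' hω'.1 l2).symm
  -- Pinsker for both conditions
  have hP1 := hPIN (PS m q) (Fin q → ℤ) (Fin m → ℤ) _ (σ.Pa B) F (fun ω => σ.tr B i (σ.x1 B k K ω))
    Zf hne
  have hP2 := hPIN (PS m q) (Fin q → ℤ) (Fin m → ℤ) _ (σ.Pa B) F (fun ω => σ.tr B i ω.1.1.2)
    Zf' hne
  have haf : cent (σ.Pa B) F Zf - cent (σ.Pa B) F (fun ω => (σ.tr B i (σ.x1 B k K ω), Zf ω)) =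
      σ.af B k K i l0 l2 := rfl
  have haf' : cent (σ.Pa B) F Zf' - cent (σ.Pa B) F (fun ω => (σ.tr B i ω.1.1.2, Zf' ω)) =
      σ.af B k K i l0 l2 := by
    rw [← haf]
    have e1 : ent (σ.Pa B) (fun ω => (F ω, Zf' ω)) = ent (σ.Pa B) (fun ω => (F ω, Zf ω)) := by
      have := p4 _ (fun γ a _ u => (σ.Cf B K l2 (γ, a) u,
        (σ.tr B i a, σ.Cf B K l0 (γ, a) u, γ, u)))
      refine Eq.trans ?_ this.symm
      refine s4a_ent_congr _ _ _ fun ω hω => ?_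
      rw [hCf ω hω l2, hCf ω hω l0]
    have e2 : ent (σ.Pa B) Zf' = ent (σ.Pa B) Zf := by
      have := p4 _ (fun γ a _ u => (σ.tr B i a, σ.Cf B K l0 (γ, a) u, γ, u))
      refine Eq.trans ?_ this.symm
      refine s4a_ent_congr _ _ _ fun ω hω => ?_
      rw [hCf ω hω l0]
    have e3 : ent (σ.Pa B) (fun ω => (F ω, (σ.tr B i ω.1.1.2, Zf' ω))) =
        ent (σ.Pa B) (fun ω => (F ω, (σ.tr B i (σ.x1 B k K ω), Zf ω))) := by
      refine ent_congr _ _ _ fun ω _ ω' _ => ?_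
      simp only [hZf, hZf', Prod.mk.injEq]
      tauto
    have e4 : ent (σ.Pa B) (fun ω => (σ.tr B i ω.1.1.2, Zf' ω)) =
        ent (σ.Pa B) (fun ω => (σ.tr B i (σ.x1 B k K ω), Zf ω)) := by
      refine ent_congr _ _ _ fun ω _ ω' _ => ?_
      simp only [hZf, hZf', Prod.mk.injEq]
      tauto
    unfold cent
    rw [e1, e2, e3, e4]
  rw [haf] at hP1
  rw [haf'] at hP2
  have hsum : ∑ ω ∈ σ.Pa B, l1
      (fib (σ.Zt B i (σ.tr B i ω.1.1.2)) (fun x' => σ.Cf B K l0 (ω.1.1.1, x') ω.2)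
        (σ.Cf B K l0 ω.1.1 ω.2))
      (fun x' => σ.Cf B K l2 (ω.1.1.1, x') ω.2)
      (fib (σ.Zt B i (σ.tr B i (σ.x1 B k K ω))) (fun x' => σ.Cf B K l0 (ω.1.1.1, x') ω.2)
        (σ.Cf B K l0 ω.1.1 ω.2))
      (fun x' => σ.Cf B K l2 (ω.1.1.1, x') ω.2) ≤
      ∑ ω ∈ σ.Pa B, (l1 (fib (σ.Pa B) (fun ω' => (σ.tr B i (σ.x1 B k K ω'), Zf ω'))
          (σ.tr B i (σ.x1 B k K ω), Zf ω)) F (fib (σ.Pa B) Zf (Zf ω)) F +
        l1 (fib (σ.Pa B) (fun ω' => (σ.tr B i ω'.1.1.2, Zf' ω'))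
          (σ.tr B i ω.1.1.2, Zf' ω)) F (fib (σ.Pa B) Zf' (Zf' ω)) F) := by
    refine Finset.sum_le_sum fun ω hω => ?_
    rw [← l1_eq_of_law _ _ _ _ _ _ _ _ (law1 ω hω) (law2 ω hω)]
    have hset : fib (σ.Pa B) (fun ω' => (σ.tr B i (σ.x1 B k K ω'), Zf ω'))
        (σ.tr B i (σ.x1 B k K ω), Zf ω) =
        fib (σ.Pa B) (fun ω' => (σ.tr B i ω'.1.1.2, Zf' ω')) (σ.tr B i ω.1.1.2, Zf' ω) := by
      ext ω'
      rw [s4a_mem_fib, s4a_mem_fib]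
      refine and_congr_right fun _ => ?_
      simp only [hZf, hZf', Prod.mk.injEq]
      tauto
    have ht := l1_triangle (fib (σ.Pa B) Zf (Zf ω)) F
      (fib (σ.Pa B) (fun ω' => (σ.tr B i (σ.x1 B k K ω'), Zf ω'))
        (σ.tr B i (σ.x1 B k K ω), Zf ω)) F (fib (σ.Pa B) Zf' (Zf' ω)) F
    rw [l1_comm (fib (σ.Pa B) Zf (Zf ω)) F (fib (σ.Pa B)
      (fun ω' => (σ.tr B i (σ.x1 B k K ω'), Zf ω')) (σ.tr B i (σ.x1 B k K ω), Zf ω)) F] at ht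
    rw [← hset]
    exact ht
  refine hsum.trans ?_
  rw [Finset.sum_add_distrib]
  calc _ ≤ ((σ.Pa B).card : ℝ) * (2 * Real.sqrt (σ.af B k K i l0 l2)) +
      ((σ.Pa B).card : ℝ) * (2 * Real.sqrt (σ.af B k K i l0 l2)) := add_le_add hP1 hP2
    _ = _ := by ring

/-- the profile distance at the corner `S`, as a function of the first two coordinates -/
noncomputable def s4aH (σ : Sy m q) (B k K i l0 l2 : ℕ) (rep : ℕ → ℕ)
    (zj : (ℕ × (Fin m → ℤ)) × ℕ) (S : Fin q → ℤ) : ℝ :=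
  dp (σ.Zt B i (σ.tr B i zj.1.2)) (σ.yc B i (rep zj.1.1))
    (σ.Zt B i (σ.tr B i (σ.pa B k K zj.1 zj.2).2)) (σ.yc B i (rep zj.1.1))
    ((B : ℤ) ^ σ.e l0) ((B : ℤ) ^ σ.e l2) S
    (fun r => S r - σ.Rd B i zj.1.1 zj.1.2 (σ.pa B k K zj.1 zj.2).2 r)

theorem s4aH_nonneg (σ : Sy m q) (B k K i l0 l2 : ℕ) (rep : ℕ → ℕ)
    (zj : (ℕ × (Fin m → ℤ)) × ℕ) (S : Fin q → ℤ) : 0 ≤ s4aH σ B k K i l0 l2 rep zj S := by
  unfold s4aH dp; exact l1_nonneg _ _ _ _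

theorem s4aH_le (σ : Sy m q) (B k K i l0 l2 : ℕ) (rep : ℕ → ℕ)
    (zj : (ℕ × (Fin m → ℤ)) × ℕ) (S : Fin q → ℤ) : s4aH σ B k K i l0 l2 rep zj S ≤ 2 := by
  unfold s4aH dp; exact l1_le_two _ _ _ _

theorem s4a_total (hPARA : ST_PARA) (hPIN : ST_PIN) (hSHIFT : ST_SHIFT) (hFANO : ST_FANO)
    (σ : Sy m q) (B k K i l0 l2 : ℕ) (rep : ℕ → ℕ) (hB : 2 ≤ B) (hne : (σ.Pa B).Nonempty)
    (he : σ.e l0 = σ.e l2 + (l2 - l0)) (ρ : ℝ) (hρ0 : 0 < ρ) (hρ : ρ ≤ (B : ℝ) ^ σ.e l2)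
    (hgeo : ∀ z ∈ σ.GX B, ∀ r : Fin q,
      |(((B : ℤ) ^ σ.e K * (σ.Y B z.1 z.2 r / (B : ℤ) ^ σ.e K) : ℤ) : ℝ) -
      ((σ.yc B i (rep z.1) z.2 r + σ.Y B z.1 (σ.co B i z.2) r : ℤ) : ℝ)| ≤ ρ) :
    ∑ ω ∈ σ.Pa B, s4aH σ B k K i l0 l2 rep ω.1
      (s4aS σ B i l0 ω.1.1.1 ω.2 (σ.tr B i ω.1.1.2) (σ.Cf B K l0 ω.1.1 ω.2)) ≤
    (σ.Pa B).card * (4 * Real.sqrt (σ.af B k K i l0 l2) + 8 * (q * (ρ / (B : ℝ) ^ σ.e l2))) := by
  obtain ⟨p1, _, _, _, p5⟩ := hPARA m q B k K σ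
  have hOm := s4a_Om_nonempty σ B hne
  have hcO : (0 : ℝ) < (σ.Om B).card := by exact_mod_cast hOm.card_pos
  have hcP : (0 : ℝ) < (σ.Pa B).card := by exact_mod_cast hne.card_pos
  have hCf : ∀ ω ∈ σ.Pa B, ∀ l, σ.Cf B K l (ω.1.1.1, σ.x1 B k K ω) ω.2 = σ.Cf B K l ω.1.1 ω.2 :=
    fun ω hω l => s4a_Cf_ff σ B k K l _ _ ω.2 (p1 ω hω).2
  have hfst := s4a_first hSHIFT hFANO σ B K i l0 l2 rep hB he ρ hρ0 hρ hgeo
  have hmid := s4a_mid hPARA hPIN σ B k K i l0 l2 hne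
  have h5 := p5 (s4aφ σ B K i l0 l2 rep)
  set A := ∑ ω ∈ σ.Pa B, s4aφ σ B K i l0 l2 rep (ω.1.1, ω.2) with hA
  set A' := ∑ ω ∈ σ.Pa B, s4aφ σ B K i l0 l2 rep ((ω.1.1.1, σ.x1 B k K ω), ω.2) with hA'
  set X := (q * (ρ / (B : ℝ) ^ σ.e l2) : ℝ) with hX
  have hA1 : A ≤ 4 * X * (σ.Pa B).card := by
    have : A * (σ.Om B).card ≤ (4 * X * (σ.Pa B).card) * (σ.Om B).card := by
      rw [h5.1]
      have := mul_le_mul_of_nonneg_right hfst hcP.le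
      linarith
    exact le_of_mul_le_mul_right this hcO
  have hA1' : A' ≤ 4 * X * (σ.Pa B).card := by
    have : A' * (σ.Om B).card ≤ (4 * X * (σ.Pa B).card) * (σ.Om B).card := by
      rw [h5.2]
      have := mul_le_mul_of_nonneg_right hfst hcP.le
      linarith
    exact le_of_mul_le_mul_right this hcO
  have hpt : ∀ ω ∈ σ.Pa B, s4aH σ B k K i l0 l2 rep ω.1
      (s4aS σ B i l0 ω.1.1.1 ω.2 (σ.tr B i ω.1.1.2) (σ.Cf B K l0 ω.1.1 ω.2)) ≤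
      s4aφ σ B K i l0 l2 rep (ω.1.1, ω.2) +
      l1 (fib (σ.Zt B i (σ.tr B i ω.1.1.2)) (fun x' => σ.Cf B K l0 (ω.1.1.1, x') ω.2)
        (σ.Cf B K l0 ω.1.1 ω.2))
      (fun x' => σ.Cf B K l2 (ω.1.1.1, x') ω.2)
      (fib (σ.Zt B i (σ.tr B i (σ.x1 B k K ω))) (fun x' => σ.Cf B K l0 (ω.1.1.1, x') ω.2)
        (σ.Cf B K l0 ω.1.1 ω.2))
      (fun x' => σ.Cf B K l2 (ω.1.1.1, x') ω.2) +
      s4aφ σ B K i l0 l2 rep ((ω.1.1.1, σ.x1 B k K ω), ω.2) := by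
    intro ω hω
    set γ := ω.1.1.1 with hγ
    set u := ω.2 with hu
    set T := σ.tr B i ω.1.1.2 with hT
    set T' := σ.tr B i (σ.x1 B k K ω) with hT'
    set p := σ.Cf B K l0 ω.1.1 ω.2 with hp
    have e1 : s4aH σ B k K i l0 l2 rep ω.1 (s4aS σ B i l0 γ u T p) =
        dp (σ.Zt B i T) (σ.yc B i (rep γ)) (σ.Zt B i T') (σ.yc B i (rep γ)) ((B : ℤ) ^ σ.e l0)
          ((B : ℤ) ^ σ.e l2) (s4aS σ B i l0 γ u T p) (s4aS σ B i l0 γ u T' p) := by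
      unfold s4aH
      have : (fun r => s4aS σ B i l0 γ u T p r -
          σ.Rd B i ω.1.1.1 ω.1.1.2 (σ.pa B k K ω.1.1 ω.1.2).2 r) = s4aS σ B i l0 γ u T' p := by
        funext r
        unfold s4aS Sy.Rd
        have c1 : s4aco σ B i T = σ.co B i ω.1.1.2 := rfl
        have c2 : s4aco σ B i T' = σ.co B i (σ.pa B k K ω.1.1 ω.1.2).2 := rfl
        rw [c1, c2]
        ring
      rw [this]
      rfl
    rw [e1, s4a_dp σ B i l0 l2 (rep γ) γ u T T' p hB he]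
    have hcell : (fun (x' : Fin m → ℤ) r => σ.Cf B K l2 (γ, x') u r / (B : ℤ) ^ (l2 - l0)) =
        (fun x' => σ.Cf B K l0 (γ, x') u) := by
      funext x'
      exact s4a_Cf_div σ B K l0 l2 he (γ, x') u
    have t1 := l1_triangle
      (fib (σ.Zt B i T) (fun x r => s4aF σ B i l2 (rep γ) γ u T x r / (B : ℤ) ^ (l2 - l0)) p)
      (s4aF σ B i l2 (rep γ) γ u T)
      (fib (σ.Zt B i T) (fun x' => σ.Cf B K l0 (γ, x') u) p)
      (fun x' => σ.Cf B K l2 (γ, x') u)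
      (fib (σ.Zt B i T') (fun x r => s4aF σ B i l2 (rep γ) γ u T' x r / (B : ℤ) ^ (l2 - l0)) p)
      (s4aF σ B i l2 (rep γ) γ u T')
    have t2 := l1_triangle
      (fib (σ.Zt B i T) (fun x' => σ.Cf B K l0 (γ, x') u) p)
      (fun x' => σ.Cf B K l2 (γ, x') u)
      (fib (σ.Zt B i T') (fun x' => σ.Cf B K l0 (γ, x') u) p)
      (fun x' => σ.Cf B K l2 (γ, x') u)
      (fib (σ.Zt B i T') (fun x r => s4aF σ B i l2 (rep γ) γ u T' x r / (B : ℤ) ^ (l2 - l0)) p)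
      (s4aF σ B i l2 (rep γ) γ u T')
    have f1 : s4aφ σ B K i l0 l2 rep (ω.1.1, ω.2) =
        l1 (fib (σ.Zt B i T) (fun x r => s4aF σ B i l2 (rep γ) γ u T x r / (B : ℤ) ^ (l2 - l0)) p)
      (s4aF σ B i l2 (rep γ) γ u T)
      (fib (σ.Zt B i T) (fun x' => σ.Cf B K l0 (γ, x') u) p)
      (fun x' => σ.Cf B K l2 (γ, x') u) := by
      rw [l1_comm, ← hcell]
      rfl
    have f2 : s4aφ σ B K i l0 l2 rep ((ω.1.1.1, σ.x1 B k K ω), ω.2) =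
        l1 (fib (σ.Zt B i T') (fun x' => σ.Cf B K l0 (γ, x') u) p)
      (fun x' => σ.Cf B K l2 (γ, x') u)
      (fib (σ.Zt B i T') (fun x r => s4aF σ B i l2 (rep γ) γ u T' x r / (B : ℤ) ^ (l2 - l0)) p)
      (s4aF σ B i l2 (rep γ) γ u T') := by
      rw [← hcell]
      have hp' : p = σ.Cf B K l0 (ω.1.1.1, σ.x1 B k K ω) ω.2 := (hCf ω hω l0).symm
      rw [hp']
      rfl
    rw [f1, f2]
    linarith
  calc _ ≤ ∑ ω ∈ σ.Pa B, (s4aφ σ B K i l0 l2 rep (ω.1.1, ω.2) +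
      l1 (fib (σ.Zt B i (σ.tr B i ω.1.1.2)) (fun x' => σ.Cf B K l0 (ω.1.1.1, x') ω.2)
        (σ.Cf B K l0 ω.1.1 ω.2))
      (fun x' => σ.Cf B K l2 (ω.1.1.1, x') ω.2)
      (fib (σ.Zt B i (σ.tr B i (σ.x1 B k K ω))) (fun x' => σ.Cf B K l0 (ω.1.1.1, x') ω.2)
        (σ.Cf B K l0 ω.1.1 ω.2))
      (fun x' => σ.Cf B K l2 (ω.1.1.1, x') ω.2) +
      s4aφ σ B K i l0 l2 rep ((ω.1.1.1, σ.x1 B k K ω), ω.2)) := Finset.sum_le_sum hpt
    _ ≤ _ := by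
      rw [Finset.sum_add_distrib, Finset.sum_add_distrib]
      nlinarith [hA1, hA1', hmid]

end sys

theorem st_S4A (hPARA : ST_PARA) (hPIN : ST_PIN) (hSHIFT : ST_SHIFT) (hFANO : ST_FANO)
    (hUDOM : ST_UDOM) (hGEO : ST_GEO) : ST_S4A := by
  intro m q B R κ D hB hR hD
  set M1 : ℝ := m * (R + 1 + D) with hM1
  have hM1n : 0 ≤ M1 := by positivity
  refine ⟨(10 * q + 2) * (M1 + 1), by positivity, ?_⟩
  intro σ C Q k K i l0 l2 rep hOk hRep hki hil0 hl02 hl2K hKn hQn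
  rcases (σ.Pa B).eq_empty_or_nonempty with hPe | hne
  · simp [hPe]
  have hBr : (1 : ℝ) ≤ B := by exact_mod_cast (by omega : 1 ≤ B)
  have hB0 : (0 : ℝ) < B := by linarith
  have he : σ.e l0 = σ.e l2 + (l2 - l0) := by unfold Sy.e; omega
  set s0 : ℝ := (B : ℝ) ^ σ.e l0 with hs0
  set s2 : ℝ := (B : ℝ) ^ σ.e l2 with hs2
  have s0pos : 0 < s0 := by positivity
  have s2pos : 0 < s2 := by positivity
  have s20 : s2 ≤ s0 := pow_le_pow_right₀ hBr (by omega)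
  set ρ : ℝ := (B : ℝ) ^ σ.e K + m * (R + 1 + D) * (B : ℝ) ^ σ.e i / (B : ℝ) ^ Q with hρd
  have hρ0 : 0 < ρ := by positivity
  set E : ℝ := (B : ℝ) ^ l2 / (B : ℝ) ^ (i + Q) + (B : ℝ) ^ l2 / (B : ℝ) ^ K with hE
  have hE0 : 0 ≤ E := by positivity
  have hρ2 : ρ / s2 = (B : ℝ) ^ l2 / (B : ℝ) ^ K + M1 * ((B : ℝ) ^ l2 / (B : ℝ) ^ (i + Q)) := by
    have x1 : (B : ℝ) ^ σ.e K * (B : ℝ) ^ K = (B : ℝ) ^ l2 * s2 := by
      rw [hs2, ← pow_add, ← pow_add]; congr 1; unfold Sy.e; omega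
    have x2 : (B : ℝ) ^ σ.e i * (B : ℝ) ^ (i + Q) = (B : ℝ) ^ l2 * (s2 * (B : ℝ) ^ Q) := by
      rw [hs2, ← pow_add, ← pow_add, ← pow_add]; congr 1; unfold Sy.e; omega
    have y1 : (B : ℝ) ^ σ.e K / s2 = (B : ℝ) ^ l2 / (B : ℝ) ^ K := by
      rw [div_eq_div_iff s2pos.ne' (by positivity)]; exact x1
    have y2 : (B : ℝ) ^ σ.e i / (B : ℝ) ^ Q / s2 = (B : ℝ) ^ l2 / (B : ℝ) ^ (i + Q) := by
      rw [div_div, div_eq_div_iff (by positivity) (by positivity), x2]; ring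
    rw [hρd, add_div, y1, ← y2, hM1]
    ring
  have hρE : ρ / s2 ≤ (M1 + 1) * E := by
    rw [hρ2, hE]
    have a1 : 0 ≤ (B : ℝ) ^ l2 / (B : ℝ) ^ K := by positivity
    have a2 : 0 ≤ (B : ℝ) ^ l2 / (B : ℝ) ^ (i + Q) := by positivity
    nlinarith
  have hgeo := s4a_geo hGEO B R κ D C σ hB hR hD hOk Q K i rep hRep (by omega) hQn
  have haf0 : 0 ≤ Real.sqrt (σ.af B k K i l0 l2) := Real.sqrt_nonneg _
  -- the left side in terms of `s4aH`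
  have hcardBx : ∀ y : Fin q → ℤ, ((Bx ((B : ℤ) ^ σ.e l0) y).card : ℝ) = s0 ^ q := by
    intro y
    have := s4a_card_Bx (B ^ σ.e l0) y
    push_cast at this
    rw [this]; push_cast; rfl
  have hLHS : ∑ ω ∈ σ.Pa B, ∑ S ∈ Bx ((B : ℤ) ^ σ.e l0) (σ.yc B i (rep ω.1.1.1) ω.1.1.2),
      dp (σ.Zt B i (σ.tr B i ω.1.1.2)) (σ.yc B i (rep ω.1.1.1))
        (σ.Zt B i (σ.tr B i (σ.x1 B k K ω))) (σ.yc B i (rep ω.1.1.1))
        ((B : ℤ) ^ σ.e l0) ((B : ℤ) ^ σ.e l2) S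
        (fun r => S r - σ.Rd B i ω.1.1.1 ω.1.1.2 (σ.x1 B k K ω) r) =
      ∑ ω ∈ σ.Pa B, ∑ S ∈ Bx ((B : ℤ) ^ σ.e l0) (σ.yc B i (rep ω.1.1.1) ω.1.1.2),
        s4aH σ B k K i l0 l2 rep ω.1 S := rfl
  rw [hLHS]
  have hcP : (0 : ℝ) < (σ.Pa B).card := by exact_mod_cast hne.card_pos
  by_cases hc : ρ ≤ s2
  swap
  · -- trivial bound
    have hE1 : 1 ≤ (M1 + 1) * E := by
      have : 1 < ρ / s2 := by rw [lt_div_iff₀ s2pos]; linarith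
      linarith
    have hb : ∑ ω ∈ σ.Pa B, ∑ S ∈ Bx ((B : ℤ) ^ σ.e l0) (σ.yc B i (rep ω.1.1.1) ω.1.1.2),
        s4aH σ B k K i l0 l2 rep ω.1 S ≤ ∑ _ω ∈ σ.Pa B, s0 ^ q * 2 := by
      refine Finset.sum_le_sum fun ω _ => ?_
      calc _ ≤ ∑ _S ∈ Bx ((B : ℤ) ^ σ.e l0) (σ.yc B i (rep ω.1.1.1) ω.1.1.2), (2 : ℝ) :=
            Finset.sum_le_sum fun S _ => s4aH_le σ B k K i l0 l2 rep ω.1 S
        _ = s0 ^ q * 2 := by rw [Finset.sum_const, nsmul_eq_mul, hcardBx]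
    refine hb.trans ?_
    rw [Finset.sum_const, nsmul_eq_mul]
    have hfac : (2 : ℝ) ≤ 4 * Real.sqrt (σ.af B k K i l0 l2) + (10 * q + 2) * (M1 + 1) * E := by
      have hq0 : (0 : ℝ) ≤ q := Nat.cast_nonneg q
      nlinarith [mul_nonneg hq0 (by linarith : (0 : ℝ) ≤ (M1 + 1) * E)]
    calc ((σ.Pa B).card : ℝ) * (s0 ^ q * 2) = ((σ.Pa B).card : ℝ) * s0 ^ q * 2 := by ring
      _ ≤ _ := mul_le_mul_of_nonneg_left hfac (by positivity)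
  -- main case
  have htot := s4a_total hPARA hPIN hSHIFT hFANO σ B k K i l0 l2 rep hB hne he ρ hρ0 hc hgeo
  have hdvd : B ^ σ.e l0 ∣ B ^ (σ.n + σ.a1 + σ.a3) := pow_dvd_pow _ (by unfold Sy.e; omega)
  have hcardU : ((σ.U B).card : ℝ) =
      ((B ^ (σ.n + σ.a1 + σ.a3) / B ^ σ.e l0 : ℕ) : ℝ) ^ q * s0 ^ q := by
    unfold Sy.U
    rw [s4a_card_gr, hs0, ← mul_pow]
    have h1 : (B ^ (σ.n + σ.a1 + σ.a3) / B ^ σ.e l0) * B ^ σ.e l0 = B ^ (σ.n + σ.a1 + σ.a3) :=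
      Nat.div_mul_cancel hdvd
    have h2 : (((B ^ (σ.n + σ.a1 + σ.a3) / B ^ σ.e l0 : ℕ) : ℝ) * (B : ℝ) ^ σ.e l0) =
        ((B ^ (σ.n + σ.a1 + σ.a3) : ℕ) : ℝ) := by exact_mod_cast h1
    rw [h2]
    push_cast
    ring
  have key : ∀ zj ∈ σ.GX B ×ˢ Finset.range (σ.N0 B),
      ∑ _u ∈ σ.U B, ∑ S ∈ Bx ((B : ℤ) ^ σ.e l0) (σ.yc B i (rep zj.1.1) zj.1.2),
        s4aH σ B k K i l0 l2 rep zj S ≤
      ∑ u ∈ σ.U B, (s0 ^ q * s4aH σ B k K i l0 l2 rep zj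
        (s4aS σ B i l0 zj.1.1 u (σ.tr B i zj.1.2) (σ.Cf B K l0 zj.1 u)) +
        s0 ^ q * (2 * (q * (ρ / s2)))) := by
    intro zj hzj
    rw [Finset.mem_product] at hzj
    have hz := hzj.1
    set y0 : Fin q → ℤ := fun r => (B : ℤ) ^ σ.e K * (σ.Y B zj.1.1 zj.1.2 r / (B : ℤ) ^ σ.e K)
      with hy0
    set v : Fin q → ℤ := fun r => σ.Y B zj.1.1 (σ.co B i zj.1.2) r with hv
    set y' : Fin q → ℤ := fun r => y0 r - v r with hy'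
    set yy : Fin q → ℤ := σ.yc B i (rep zj.1.1) zj.1.2 with hyy
    have hU := hUDOM q (B ^ (σ.n + σ.a1 + σ.a3)) (B ^ σ.e l0) y' v
      (s4aH σ B k K i l0 l2 rep zj) (by positivity) hdvd
    have hUl : ∑ u ∈ gr q (B ^ (σ.n + σ.a1 + σ.a3)), s4aH σ B k K i l0 l2 rep zj
        (fun r => ((B ^ σ.e l0 : ℕ) : ℤ) * ((y' r + v r + u r) / ((B ^ σ.e l0 : ℕ) : ℤ)) -
          u r - v r) = ∑ u ∈ σ.U B, s4aH σ B k K i l0 l2 rep zj
        (s4aS σ B i l0 zj.1.1 u (σ.tr B i zj.1.2) (σ.Cf B K l0 zj.1 u)) := by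
      unfold Sy.U
      refine Finset.sum_congr rfl fun u _ => ?_
      have : (fun r => ((B ^ σ.e l0 : ℕ) : ℤ) * ((y' r + v r + u r) / ((B ^ σ.e l0 : ℕ) : ℤ)) -
          u r - v r) = s4aS σ B i l0 zj.1.1 u (σ.tr B i zj.1.2) (σ.Cf B K l0 zj.1 u) := by
        funext r
        unfold s4aS Sy.Cf cl
        have h1 : y' r + v r = (B : ℤ) ^ σ.e K * (σ.Y B zj.1.1 zj.1.2 r / (B : ℤ) ^ σ.e K) := by
          rw [hy']; simp only; rw [hy0]; ring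
        have h2 : s4aco σ B i (σ.tr B i zj.1.2) = σ.co B i zj.1.2 := rfl
        rw [h1, h2]
        push_cast
        rfl
      rw [this]
    rw [hUl] at hU
    have hdiff : ∀ r, |(yy r : ℝ) - (y' r : ℝ)| ≤ ρ := by
      intro r
      have := hgeo zj.1 hz r
      rw [abs_sub_comm] at this
      refine le_trans (le_of_eq ?_) this
      congr 1
      rw [hy', hv, hy0, hyy]
      push_cast
      ring
    have hbox := s4a_box_sdiff (B ^ σ.e l0) yy y' ρ hdiff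
    have hBxe : Bx ((B : ℤ) ^ σ.e l0) yy = Bx (((B ^ σ.e l0 : ℕ) : ℤ)) yy := by push_cast; rfl
    rw [hBxe]
    have hsplit : ∑ S ∈ Bx (((B ^ σ.e l0 : ℕ) : ℤ)) yy, s4aH σ B k K i l0 l2 rep zj S ≤
        ∑ S ∈ Bx (((B ^ σ.e l0 : ℕ) : ℤ)) y', s4aH σ B k K i l0 l2 rep zj S +
        2 * ((Bx (((B ^ σ.e l0 : ℕ) : ℤ)) yy \ Bx (((B ^ σ.e l0 : ℕ) : ℤ)) y').card : ℝ) := by
      rw [← Finset.sum_inter_add_sum_sdiff (Bx (((B ^ σ.e l0 : ℕ) : ℤ)) yy)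
        (Bx (((B ^ σ.e l0 : ℕ) : ℤ)) y')]
      refine add_le_add ?_ ?_
      · exact Finset.sum_le_sum_of_subset_of_nonneg Finset.inter_subset_right
          (fun S _ _ => s4aH_nonneg σ B k K i l0 l2 rep zj S)
      · calc _ ≤ ∑ _S ∈ Bx (((B ^ σ.e l0 : ℕ) : ℤ)) yy \ Bx (((B ^ σ.e l0 : ℕ) : ℤ)) y', (2 : ℝ) :=
              Finset.sum_le_sum fun S _ => s4aH_le σ B k K i l0 l2 rep zj S
          _ = _ := by rw [Finset.sum_const, nsmul_eq_mul]; ring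
    set NN : ℝ := ((Bx (((B ^ σ.e l0 : ℕ) : ℤ)) yy \ Bx (((B ^ σ.e l0 : ℕ) : ℤ)) y').card : ℝ)
      with hNN
    have hbox' : NN * s0 ≤ q * ρ * s0 ^ q := by
      have := hbox
      push_cast at this
      rw [hNN]
      push_cast
      exact this
    have hNNb : NN ≤ s0 ^ q * (q * (ρ / s2)) := by
      have h1 : NN ≤ q * ρ * s0 ^ q / s0 := by rw [le_div_iff₀ s0pos]; exact hbox'
      have h2 : q * ρ * s0 ^ q / s0 ≤ q * ρ * s0 ^ q / s2 :=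
        div_le_div_of_nonneg_left (by positivity) s2pos s20
      have h3 : q * ρ * s0 ^ q / s2 = s0 ^ q * (q * (ρ / s2)) := by ring
      linarith
    rw [Finset.sum_const, nsmul_eq_mul, Finset.sum_add_distrib, Finset.sum_const, nsmul_eq_mul,
      ← Finset.mul_sum, hU]
    have hUc : 0 ≤ ((σ.U B).card : ℝ) := Nat.cast_nonneg _
    calc ((σ.U B).card : ℝ) * ∑ S ∈ Bx (((B ^ σ.e l0 : ℕ) : ℤ)) yy,
          s4aH σ B k K i l0 l2 rep zj S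
        ≤ ((σ.U B).card : ℝ) * (∑ S ∈ Bx (((B ^ σ.e l0 : ℕ) : ℤ)) y',
          s4aH σ B k K i l0 l2 rep zj S + 2 * NN) := mul_le_mul_of_nonneg_left hsplit hUc
      _ = ((σ.U B).card : ℝ) * (∑ S ∈ Bx (((B ^ σ.e l0 : ℕ) : ℤ)) y',
          s4aH σ B k K i l0 l2 rep zj S) + ((σ.U B).card : ℝ) * (2 * NN) := by ring
      _ ≤ s0 ^ q * (((B ^ (σ.n + σ.a1 + σ.a3) / B ^ σ.e l0 : ℕ) : ℝ) ^ q *
          ∑ S ∈ Bx (((B ^ σ.e l0 : ℕ) : ℤ)) y', s4aH σ B k K i l0 l2 rep zj S) +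
          ((σ.U B).card : ℝ) * (s0 ^ q * (2 * (q * (ρ / s2)))) := by
        refine add_le_add (le_of_eq ?_) (mul_le_mul_of_nonneg_left (by linarith) hUc)
        rw [hcardU]; ring
  have hPa : ∀ f : PS m q → ℝ, ∑ ω ∈ σ.Pa B, f ω =
      ∑ zj ∈ σ.GX B ×ˢ Finset.range (σ.N0 B), ∑ u ∈ σ.U B, f (zj, u) := by
    intro f
    unfold Sy.Pa
    rw [Finset.sum_product]
  have hmain : ∑ ω ∈ σ.Pa B, ∑ S ∈ Bx ((B : ℤ) ^ σ.e l0) (σ.yc B i (rep ω.1.1.1) ω.1.1.2),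
        s4aH σ B k K i l0 l2 rep ω.1 S ≤
      ∑ ω ∈ σ.Pa B, (s0 ^ q * s4aH σ B k K i l0 l2 rep ω.1
        (s4aS σ B i l0 ω.1.1.1 ω.2 (σ.tr B i ω.1.1.2) (σ.Cf B K l0 ω.1.1 ω.2)) +
        s0 ^ q * (2 * (q * (ρ / s2)))) := by
    rw [hPa, hPa]
    exact Finset.sum_le_sum key
  refine hmain.trans ?_
  rw [Finset.sum_add_distrib, ← Finset.mul_sum, Finset.sum_const, nsmul_eq_mul]
  have hs0q : 0 < s0 ^ q := by positivity
  have h1 := mul_le_mul_of_nonneg_left htot hs0q.le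
  have hq0 : (0 : ℝ) ≤ q := Nat.cast_nonneg q
  have hfin : 10 * (q * (ρ / s2)) ≤ (10 * q + 2) * (M1 + 1) * E := by
    have a1 : (q : ℝ) * (ρ / s2) ≤ q * ((M1 + 1) * E) := mul_le_mul_of_nonneg_left hρE hq0
    have a2 : 0 ≤ (M1 + 1) * E := by positivity
    nlinarith
  have h2 : s0 ^ q * ((σ.Pa B).card * (4 * Real.sqrt (σ.af B k K i l0 l2) +
      8 * (q * (ρ / s2)))) + (σ.Pa B).card * (s0 ^ q * (2 * (q * (ρ / s2)))) =
      (σ.Pa B).card * s0 ^ q * (4 * Real.sqrt (σ.af B k K i l0 l2) + 10 * (q * (ρ / s2))) := by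
    ring
  have h3 : ((σ.Pa B).card : ℝ) * s0 ^ q * (4 * Real.sqrt (σ.af B k K i l0 l2) +
      10 * (q * (ρ / s2))) ≤ (σ.Pa B).card * s0 ^ q * (4 * Real.sqrt (σ.af B k K i l0 l2) +
      (10 * q + 2) * (M1 + 1) * E) :=
    mul_le_mul_of_nonneg_left (by linarith) (by positivity)
  linarith

end Pool.Agent.Helper70.SK
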